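import Pool.Agent.HCF.SFinal

/-!
# The parametrized alpha-approximation statement fails for the Hilbert cube

There are a metric space `M` homeomorphic to the Hilbert cube and a compact connected locally
connected metrizable space `B` such that for every `ε > 0` there are a compact metric space `E`, a
Hurewicz fibration `p : E → B` all of whose fibres are isometric to `M`, and a fibrewise `ε`-map
`f` of `E` onto `M × B` which is not a shape equivalence.
-/

open Set Topology

namespace Pool.Agent.Results.MP_bb2a3d_gt.OntoHilbertCube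

/-- The Hilbert cube `Q`. -/
abbrev Q : Type := ℕ → unitInterval

/-- `p : E → B` is a Hurewicz fibration: it has the homotopy lifting property for all spaces. -/
def IsHurewiczFibration {E B : Type} [TopologicalSpace E] [TopologicalSpace B] (p : C(E, B)) :
    Prop :=
  ∀ (Z : Type) [TopologicalSpace Z] (H : C(Z × unitInterval, B)) (g : C(Z, E)),
    (∀ z, p (g z) = H (z, 0)) →
      ∃ G : C(Z × unitInterval, E), (∀ z, G (z, 0) = g z) ∧ ∀ y, p (G y) = H y

/-- `P` is an absolute neighbourhood retract for metrizable spaces. -/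
def IsANR (P : Type) [TopologicalSpace P] : Prop :=
  TopologicalSpace.MetrizableSpace P ∧
    ∀ (Z : Type) [TopologicalSpace Z] [TopologicalSpace.MetrizableSpace Z] (e : P → Z),
      IsClosedEmbedding e → ∃ U : Set Z, IsOpen U ∧ range e ⊆ U ∧
        ∃ r : C(U, P), ∀ (x : P) (hx : e x ∈ U), r ⟨e x, hx⟩ = x

/-- `f : X → Y` is a shape equivalence: for every ANR `P` the composition with `f` is a bijection
`[Y, P] → [X, P]` between the sets of homotopy classes of maps. -/
def IsShapeEquiv {X Y : Type} [TopologicalSpace X] [TopologicalSpace Y] (f : C(X, Y)) : Prop :=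
  ∀ (P : Type) [TopologicalSpace P], IsANR P →
    (∀ h h' : C(Y, P), (h.comp f).Homotopic (h'.comp f) → h.Homotopic h') ∧
      ∀ g : C(X, P), ∃ h : C(Y, P), (h.comp f).Homotopic g

/-- **Parametrized `α`-approximation fails for the Hilbert cube, even for maps onto.** -/
theorem result :
    ∃ (M : Type) (_ : MetricSpace M) (B : Type) (_ : MetricSpace B),
      Nonempty (M ≃ₜ Q) ∧ CompactSpace B ∧ ConnectedSpace B ∧ LocallyConnectedSpace B ∧
      ∀ ε : ℝ, 0 < ε → ∃ (E : Type) (_ : MetricSpace E) (_ : CompactSpace E) (p : C(E, B))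
        (f : C(E, M × B)),
        -- `p` is a Hurewicz fibration with fibres isometric to `M`
        IsHurewiczFibration p ∧ (∀ b : B, Nonempty (p ⁻¹' {b} ≃ᵢ M)) ∧
        -- `f` is a fibrewise `ε`-map onto `M × B`
        (∀ e, (f e).2 = p e) ∧ Function.Surjective f ∧ (∀ y, Metric.diam (f ⁻¹' {y}) < ε) ∧
        ¬ IsShapeEquiv f :=
  Pool.Agent.HCF.main

end Pool.Agent.Results.MP_bb2a3d_gt.OntoHilbertCube
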