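import Mathlib

/-!
# Fiberwise epsilon-maps over an ordered continuum need not be shape equivalences
-/

open Set Topology unitInterval

namespace Pool.Agent.Results.MP_bb2a3d_gt.OrderedBase

/-! ### Definitions -/

/-- `p : E → B` is a Hurewicz fibration: it has the homotopy lifting property for all spaces. -/
def IsHurewiczFibration {E B : Type} [TopologicalSpace E] [TopologicalSpace B] (p : C(E, B)) :
    Prop :=
  ∀ (Z : Type) [TopologicalSpace Z] (H : C(Z × unitInterval, B)) (g : C(Z, E)),
    (∀ z, p (g z) = H (z, 0)) →
      ∃ G : C(Z × unitInterval, E), (∀ z, G (z, 0) = g z) ∧ ∀ y, p (G y) = H y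

/-- `P` is an absolute neighbourhood retract for metrizable spaces. -/
def IsANR (P : Type) [TopologicalSpace P] : Prop :=
  TopologicalSpace.MetrizableSpace P ∧
    ∀ (Z : Type) [TopologicalSpace Z] [TopologicalSpace.MetrizableSpace Z] (e : P → Z),
      IsClosedEmbedding e → ∃ U : Set Z, IsOpen U ∧ range e ⊆ U ∧
        ∃ r : C(U, P), ∀ (x : P) (hx : e x ∈ U), r ⟨e x, hx⟩ = x

/-- `f : X → Y` is a shape equivalence: for every ANR `P` the composition with `f` is a bijection
`[Y, P] → [X, P]` between the sets of homotopy classes of maps. -/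
def IsShapeEquiv {X Y : Type} [TopologicalSpace X] [TopologicalSpace Y] (f : C(X, Y)) : Prop :=
  ∀ (P : Type) [TopologicalSpace P], IsANR P →
    (∀ h h' : C(Y, P), (h.comp f).Homotopic (h'.comp f) → h.Homotopic h') ∧
      ∀ g : C(X, P), ∃ h : C(Y, P), (h.comp f).Homotopic g

/-! ### The two point space is an ANR -/

lemma isANR_bool : IsANR Bool := by
  refine ⟨inferInstance, ?_⟩
  intro Z _ _ e he
  have hne : e true ≠ e false := fun h => by
    have := he.injective h
    exact Bool.noConfusion this
  obtain ⟨u, v, hu, hv, hxu, hxv, huv⟩ := t2_separation hne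
  refine ⟨u ∪ v, hu.union hv, ?_, ?_⟩
  · rintro _ ⟨b, rfl⟩
    cases b
    · exact Or.inr hxv
    · exact Or.inl hxu
  · classical
    refine ⟨⟨fun z => decide (z.1 ∈ u), ?_⟩, ?_⟩
    · rw [continuous_discrete_rng]
      intro b
      cases b
      · have : (fun z : (u ∪ v : Set Z) => decide (z.1 ∈ u)) ⁻¹' {false} =
            Subtype.val ⁻¹' v := by
          ext z
          simp only [mem_preimage, mem_singleton_iff, decide_eq_false_iff_not]
          constructor
          · intro h
            exact z.2.resolve_left h
          · intro h h'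
            exact Set.disjoint_left.1 huv h' h
        rw [this]
        exact hv.preimage continuous_subtype_val
      · have : (fun z : (u ∪ v : Set Z) => decide (z.1 ∈ u)) ⁻¹' {true} =
            Subtype.val ⁻¹' u := by
          ext z
          simp
        rw [this]
        exact hu.preimage continuous_subtype_val
    · intro b hb
      cases b
      · show decide (e false ∈ u) = false
        rw [decide_eq_false_iff_not]
        intro h
        exact Set.disjoint_left.1 huv h hxv
      · show decide (e true ∈ u) = true
        rw [decide_eq_true_iff]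
        exact hxu

/-! ### The ordered continuum -/

/-- Sequences of points of the unit interval, ordered lexicographically. -/
abbrev L : Type := Πₗ (_ : ℕ), unitInterval

/-- `L` carries the order topology. -/
instance : TopologicalSpace L := Preorder.topology L

instance : OrderTopology L := ⟨rfl⟩

noncomputable instance : CompleteLinearOrder unitInterval := inferInstance

instance : CompactSpace L := inferInstance

lemma denselyOrdered_aux : DenselyOrdered L := inferInstance

instance : @DenselyOrdered L (@Preorder.toLT L (@PartialOrder.toPreorder L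
    (@LinearOrder.toPartialOrder L ConditionallyCompleteLinearOrder.toLinearOrder))) :=
  denselyOrdered_aux

instance : PreconnectedSpace L := inferInstance

instance : ConnectedSpace L := { toNonempty := ⟨⊥⟩ }

instance : LocallyConnectedSpace L := by
  rw [locallyConnectedSpace_iff_connected_subsets]
  intro x U hU
  obtain ⟨b, c, -, hN, hsub⟩ := exists_Icc_mem_subset_of_mem_nhds hU
  exact ⟨Icc b c, hN, isPreconnected_Icc, hsub⟩

/-- The sequence which follows `x` before `n`, equals `r` at `n` and is constant `c` after `n`. -/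
def w (x : L) (n : ℕ) (r c : unitInterval) : L :=
  toLex fun j => if j < n then x j else if j = n then r else c

lemma w_lt_w (x : L) (n : ℕ) {r r' : unitInterval} (h : r < r') (c c' : unitInterval) :
    w x n r c < w x n r' c' := by
  refine ⟨n, fun j hj => ?_, ?_⟩
  · simp [w, hj]
  · simpa [w] using h

lemma w_lt_w_tail (x : L) (n : ℕ) (r : unitInterval) {c c' : unitInterval} (h : c < c') :
    w x n r c < w x n r c' := by
  refine ⟨n + 1, fun j hj => ?_, ?_⟩
  · have hj' : j < n + 1 := hj
    rcases Nat.lt_or_ge j n with h1 | h1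
    · simp [w, h1]
    · have h2 : j = n := by omega
      subst h2
      simp [w]
  · simpa [w] using h

lemma lt_w (x : L) (n : ℕ) {r : unitInterval} (h : x n < r) (c : unitInterval) :
    x < w x n r c := by
  refine ⟨n, fun j hj => ?_, ?_⟩
  · have hj' : j < n := hj
    simp [w, hj']
  · simpa [w] using h

lemma w_lt (x y : L) (n : ℕ) (hxy : ∀ j < n, x j = y j) {r : unitInterval} (h : r < y n)
    (c : unitInterval) : w x n r c < y := by
  refine ⟨n, fun j hj => ?_, ?_⟩
  · have hj' : j < n := hj
    simpa [w, hj'] using hxy j hj'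
  · simpa [w] using h

lemma half_pos' : (0 : unitInterval) < ⟨1 / 2, by norm_num, by norm_num⟩ := by
  rw [← Subtype.coe_lt_coe]
  norm_num

lemma half_lt' : (⟨1 / 2, by norm_num, by norm_num⟩ : unitInterval) < 1 := by
  rw [← Subtype.coe_lt_coe]
  norm_num

/-- A map from a separable connected space to `L` does not take two different values. -/
lemma not_lt_of_continuous {X : Type} [TopologicalSpace X] [TopologicalSpace.SeparableSpace X]
    [PreconnectedSpace X] {g : X → L} (hg : Continuous g) (s t : X) : ¬ g s < g t := by
  intro hst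
  obtain ⟨n, hn, hlt⟩ := hst
  have hn' : ∀ j < n, (g s) j = (g t) j := hn
  have hcount : (Ioo ((g s) n) ((g t) n)).Countable := by
    refine Set.PairwiseDisjoint.countable_of_isOpen (α := X)
      (s := fun r => g ⁻¹' Ioo (w (g s) n r 0) (w (g s) n r 1)) ?_ ?_ ?_
    · intro r _ r' _ hne
      refine Disjoint.preimage g ?_
      rw [Set.disjoint_left]
      intro z hz hz'
      rcases lt_or_gt_of_ne hne with h | h
      · exact lt_irrefl _ ((hz'.1.trans hz.2).trans (w_lt_w (g s) n h 1 0))
      · exact lt_irrefl _ ((hz.1.trans hz'.2).trans (w_lt_w (g s) n h 1 0))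
    · intro r _
      exact isOpen_Ioo.preimage hg
    · intro r hr
      have h1 : g s ≤ w (g s) n r ⟨1 / 2, by norm_num, by norm_num⟩ :=
        (lt_w (g s) n hr.1 _).le
      have h2 : w (g s) n r ⟨1 / 2, by norm_num, by norm_num⟩ ≤ g t :=
        (w_lt (g s) (g t) n hn' hr.2 _).le
      obtain ⟨a, ha⟩ := mem_range_of_exists_le_of_exists_ge hg ⟨s, h1⟩ ⟨t, h2⟩
      refine ⟨a, ?_⟩
      rw [mem_preimage, ha]
      exact ⟨w_lt_w_tail _ n r half_pos', w_lt_w_tail _ n r half_lt'⟩
  have himg : Ioo (((g s) n : unitInterval) : ℝ) (((g t) n : unitInterval) : ℝ) ⊆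
      Subtype.val '' Ioo ((g s) n) ((g t) n) := by
    intro r hr
    have hr0 : r ∈ unitInterval := ⟨((g s) n).2.1.trans hr.1.le, hr.2.le.trans ((g t) n).2.2⟩
    exact ⟨⟨r, hr0⟩, ⟨Subtype.coe_lt_coe.1 hr.1, Subtype.coe_lt_coe.1 hr.2⟩, rfl⟩
  have hc2 := (hcount.image Subtype.val).mono himg
  rw [Cardinal.Real.Ioo_countable_iff] at hc2
  exact absurd (Subtype.coe_lt_coe.2 hlt) (not_lt.2 hc2)

/-- Every map from a separable connected space to `L` is constant. -/
lemma const_of_continuous {X : Type} [TopologicalSpace X] [TopologicalSpace.SeparableSpace X]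
    [PreconnectedSpace X] {g : X → L} (hg : Continuous g) (s t : X) : g s = g t :=
  le_antisymm (not_lt.1 (not_lt_of_continuous hg t s)) (not_lt.1 (not_lt_of_continuous hg s t))

/-! ### The total space -/

section

variable (M : Type) [MetricSpace M]

/-- The total space: one copy of `M` for every point of `L`, as a metric disjoint union. -/
abbrev E : Type := Σ _ : L, M

/-- The metric of the disjoint union. -/
noncomputable instance instE : MetricSpace (E M) := Metric.Sigma.metricSpace

lemma dist_mk (b : L) (x y : M) : dist (⟨b, x⟩ : E M) ⟨b, y⟩ = dist x y :=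
  Metric.Sigma.dist_same (E := fun _ : L => M) b x y

/-- The projection. -/
noncomputable def proj : C(E M, L) where
  toFun := Sigma.fst
  continuous_toFun := continuous_sigma fun _ => continuous_const

/-- The fiberwise map. -/
noncomputable def fw : C(E M, M × L) where
  toFun := fun e => (e.2, e.1)
  continuous_toFun := continuous_sigma fun _ => (continuous_id.prodMk continuous_const)

lemma proj_fibration : IsHurewiczFibration (proj M) := by
  intro Z _ H g hg
  refine ⟨⟨fun y => g y.1, g.continuous.comp continuous_fst⟩, fun z => rfl, fun y => ?_⟩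
  obtain ⟨z, t⟩ := y
  have hc : Continuous fun s : unitInterval => H (z, s) := H.continuous.comp (by fun_prop)
  exact (hg z).trans (const_of_continuous hc 0 t)

/-- The fibers are isometric to `M`. -/
noncomputable def fibIso (b : L) : (proj M ⁻¹' {b} : Set (E M)) ≃ᵢ M where
  toFun := fun e => e.1.2
  invFun := fun m => ⟨(⟨b, m⟩ : E M), rfl⟩
  left_inv := by
    rintro ⟨⟨c, m⟩, h⟩
    have hc : c = b := h
    subst hc
    rfl
  right_inv := fun m => rfl
  isometry_toFun := by
    refine Isometry.of_dist_eq ?_
    rintro ⟨⟨c, m⟩, h⟩ ⟨⟨c', m'⟩, h'⟩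
    have hc : c = b := h
    have hc' : c' = b := h'
    subst hc
    subst hc'
    exact (dist_mk M _ m m').symm

lemma fw_dist (e e' : E M) (h : proj M e = proj M e') :
    dist (fw M e).1 (fw M e').1 = dist e e' := by
  obtain ⟨c, m⟩ := e
  obtain ⟨c', m'⟩ := e'
  have hc : c = c' := h
  subst hc
  exact (dist_mk M _ m m').symm

lemma fw_bijective : Function.Bijective (fw M) := by
  constructor
  · rintro ⟨c, m⟩ ⟨c', m'⟩ h
    have h' : (m, c) = (m', c') := h
    obtain ⟨rfl, rfl⟩ := Prod.mk.inj h'
    rfl
  · rintro ⟨m, c⟩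
    exact ⟨⟨c, m⟩, rfl⟩

/-- Homotopic maps to the two point space agree. -/
lemma eq_of_homotopic {X : Type} [TopologicalSpace X] {u v : C(X, Bool)} (h : u.Homotopic v)
    (x : X) : u x = v x := by
  obtain ⟨F⟩ := h
  have hc : Continuous fun s : unitInterval => F (s, x) := F.continuous.comp (by fun_prop)
  have := PreconnectedSpace.constant (inferInstance : PreconnectedSpace unitInterval) hc
    (x := 0) (y := 1)
  rw [F.apply_zero, F.apply_one] at this
  exact this

open Classical in
/-- The map to the two point space which detects one fiber. -/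
noncomputable def det : C(E M, Bool) where
  toFun := fun e => decide (e.1 = ⊥)
  continuous_toFun := continuous_sigma (fun b => (continuous_const : Continuous fun _ : M =>
    decide (b = ⊥)))

lemma bot_ne_top' : (⊥ : L) ≠ ⊤ := by
  intro h
  have h1 : ∀ x y : L, x = y := fun x y =>
    le_antisymm ((le_top.trans h.symm.le).trans bot_le) ((le_top.trans h.symm.le).trans bot_le)
  have h2 := w_lt_w (⊥ : L) 0 (zero_lt_one : (0 : unitInterval) < 1) 0 0
  rw [h1 (w ⊥ 0 0 0) (w ⊥ 0 1 0)] at h2
  exact lt_irrefl _ h2

lemma fw_not_shape [Nonempty M] : ¬ IsShapeEquiv (fw M) := by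
  intro hs
  obtain ⟨h, hh⟩ := (hs Bool isANR_bool).2 (det M)
  obtain ⟨m⟩ := ‹Nonempty M›
  have hc : Continuous fun b : L => h (m, b) := h.continuous.comp (by fun_prop)
  have h1 : h (m, ⊥) = h (m, ⊤) :=
    PreconnectedSpace.constant (inferInstance : PreconnectedSpace L) hc
  have h2 : h (m, ⊥) = det M ⟨⊥, m⟩ := eq_of_homotopic hh ⟨⊥, m⟩
  have h3 : h (m, ⊤) = det M ⟨⊤, m⟩ := eq_of_homotopic hh ⟨⊤, m⟩
  have h4 : det M ⟨⊥, m⟩ = true := by
    simp [det]
  have h5 : det M ⟨⊤, m⟩ = false := by
    have h6 : ¬ ((⊤ : L) = ⊥) := fun h => bot_ne_top' h.symm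
    simp [det, h6]
  rw [h2, h3, h4, h5] at h1
  exact Bool.noConfusion h1

end

/-- There is a connected and locally connected compact Hausdorff space `B` such that for every
nonempty compact metric space `M` (in particular for every closed manifold) and every `ε > 0`
there are a metric space `E`, a Hurewicz fibration `p : E → B` all of whose fibers are isometric
to `M`, and a fiberwise bijective `ε`-map `f : E → M × B`, isometric on every fiber, which is not a
shape equivalence. -/
theorem result : ∃ (B : Type) (_ : TopologicalSpace B),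
    CompactSpace B ∧ T2Space B ∧ ConnectedSpace B ∧ LocallyConnectedSpace B ∧
    ∀ (M : Type) [MetricSpace M] [CompactSpace M] [Nonempty M] (ε : ℝ), 0 < ε →
      ∃ (E : Type) (_ : MetricSpace E) (p : C(E, B)) (f : C(E, M × B)),
        IsHurewiczFibration p ∧ (∀ b : B, Nonempty ((p ⁻¹' {b} : Set E) ≃ᵢ M)) ∧
        (∀ x, (f x).2 = p x) ∧ Function.Bijective f ∧
        (∀ x y, p x = p y → dist (f x).1 (f y).1 = dist x y) ∧
        (∀ y, Metric.diam (f ⁻¹' {y}) < ε) ∧ ¬ IsShapeEquiv f := by
  refine ⟨L, inferInstance, inferInstance, inferInstance, inferInstance, inferInstance, ?_⟩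
  intro M _ _ _ ε hε
  refine ⟨E M, instE M, proj M, fw M, proj_fibration M, fun b => ⟨fibIso M b⟩, fun x => rfl,
    fw_bijective M, fw_dist M, fun y => ?_, fw_not_shape M⟩
  rw [Metric.diam_subsingleton]
  · exact hε
  · intro a ha b hb
    exact (fw_bijective M).1 ((mem_singleton_iff.1 ha).trans (mem_singleton_iff.1 hb).symm)

end Pool.Agent.Results.MP_bb2a3d_gt.OrderedBase
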