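import Mathlib

/-!
# Fiberwise epsilon-maps over Hilbert cube manifolds need not be shape equivalences
-/

open Set Topology unitInterval

namespace Pool.Agent.Results.MP_bb2a3d_gt.QManifold

/-! ### Definitions -/

/-- The Hilbert cube `Q`. -/
abbrev Q : Type := ℕ → unitInterval

/-- `M` is a Hilbert cube manifold (`Q`-manifold): a separable metrizable space in which every point
lies in an open set homeomorphic to an open subset of the Hilbert cube (given here by an open
embedding `g : V → M` of an open set `V ⊆ Q` whose range contains the point). -/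
def IsQManifold (M : Type) [TopologicalSpace M] : Prop :=
  TopologicalSpace.MetrizableSpace M ∧ TopologicalSpace.SeparableSpace M ∧
    ∀ x : M, ∃ (V : Set Q) (g : V → M), IsOpen V ∧ IsOpenEmbedding g ∧ x ∈ range g

/-- `p : E → B` is a Hurewicz fibration: it has the homotopy lifting property for all spaces. -/
def IsHurewiczFibration {E B : Type} [TopologicalSpace E] [TopologicalSpace B] (p : C(E, B)) :
    Prop :=
  ∀ (Z : Type) [TopologicalSpace Z] (H : C(Z × unitInterval, B)) (g : C(Z, E)),
    (∀ z, p (g z) = H (z, 0)) →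
      ∃ G : C(Z × unitInterval, E), (∀ z, G (z, 0) = g z) ∧ ∀ y, p (G y) = H y

/-- `P` is an absolute neighbourhood retract for metrizable spaces. -/
def IsANR (P : Type) [TopologicalSpace P] : Prop :=
  TopologicalSpace.MetrizableSpace P ∧
    ∀ (Z : Type) [TopologicalSpace Z] [TopologicalSpace.MetrizableSpace Z] (e : P → Z),
      IsClosedEmbedding e → ∃ U : Set Z, IsOpen U ∧ range e ⊆ U ∧
        ∃ r : C(U, P), ∀ (x : P) (hx : e x ∈ U), r ⟨e x, hx⟩ = x

/-- `f : X → Y` is a shape equivalence: for every ANR `P` the composition with `f` is a bijection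
`[Y, P] → [X, P]` between the sets of homotopy classes of maps. -/
def IsShapeEquiv {X Y : Type} [TopologicalSpace X] [TopologicalSpace Y] (f : C(X, Y)) : Prop :=
  ∀ (P : Type) [TopologicalSpace P], IsANR P →
    (∀ h h' : C(Y, P), (h.comp f).Homotopic (h'.comp f) → h.Homotopic h') ∧
      ∀ g : C(X, P), ∃ h : C(Y, P), (h.comp f).Homotopic g

/-! ### The circle is an ANR and is not contractible -/

lemma circle_not_nullhomotopic (c : Circle) :
    ¬ (ContinuousMap.id Circle).Homotopic (ContinuousMap.const Circle c) := by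
  rintro ⟨F⟩
  obtain ⟨t, ht⟩ := Circle.exp_surjective c
  have cov := Circle.isCoveringMap_exp
  let G := F.symm
  have hG0 : ∀ a : Circle, G.toContinuousMap (0, a) = Circle.exp ((ContinuousMap.const Circle t) a) := by
    intro a
    simp [G, ht]
  let L := cov.liftHomotopy G.toContinuousMap (ContinuousMap.const Circle t) hG0
  have hL : ∀ y, Circle.exp (L y) = G y := fun y =>
    congr_fun (cov.liftHomotopy_lifts G.toContinuousMap (ContinuousMap.const Circle t) hG0) y
  have hs : ∀ z : Circle, Circle.exp (L (1, z)) = z := by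
    intro z
    rw [hL]
    simp [G]
  let s : Circle → ℝ := fun z => L (1, z)
  have hsc : Continuous s := L.continuous.comp (by fun_prop)
  have hneg : Continuous fun z : Circle => s z - s (Circle.exp Real.pi * z) := by
    refine hsc.sub (hsc.comp (by fun_prop))
  have hpi : Circle.exp Real.pi * Circle.exp Real.pi = 1 := by
    rw [← Circle.exp_add, ← two_mul, Circle.exp_two_pi]
  have hodd : ∀ z, (s (Circle.exp Real.pi * z) - s (Circle.exp Real.pi * (Circle.exp Real.pi * z)))
      = -(s z - s (Circle.exp Real.pi * z)) := by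
    intro z
    rw [← mul_assoc, hpi, one_mul]; ring
  obtain ⟨z, hz⟩ : ∃ z, s z - s (Circle.exp Real.pi * z) = 0 := by
    have hpre : IsPreconnected (univ : Set Circle) := isPreconnected_univ
    rcases le_total (s 1 - s (Circle.exp Real.pi * 1)) 0 with h | h
    · obtain ⟨z, -, hz⟩ := hpre.intermediate_value (mem_univ (1 : Circle))
        (mem_univ (Circle.exp Real.pi * 1)) hneg.continuousOn
        ⟨h, by
          show 0 ≤ s (Circle.exp Real.pi * 1) - s (Circle.exp Real.pi * (Circle.exp Real.pi * 1))
          have := hodd 1; linarith⟩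
      exact ⟨z, hz⟩
    · obtain ⟨z, -, hz⟩ := hpre.intermediate_value (mem_univ (Circle.exp Real.pi * 1))
        (mem_univ (1 : Circle)) hneg.continuousOn
        ⟨by
          show s (Circle.exp Real.pi * 1) - s (Circle.exp Real.pi * (Circle.exp Real.pi * 1)) ≤ 0
          have := hodd 1; linarith, h⟩
      exact ⟨z, hz⟩
  have h1 : z = Circle.exp Real.pi * z := by
    rw [← hs z]
    conv_rhs => rw [hs z, ← hs (Circle.exp Real.pi * z)]
    have : s z = s (Circle.exp Real.pi * z) := by linarith
    exact congrArg Circle.exp this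
  have h2 : Circle.exp Real.pi = 1 := by
    have := mul_right_cancel (a := (1 : Circle)) (b := z) (c := Circle.exp Real.pi) (by simpa using h1)
    exact this.symm
  rw [Circle.exp_eq_one] at h2
  obtain ⟨n, hn⟩ := h2
  have hpos := Real.pi_pos
  have h3 : (1 : ℝ) = n * 2 := by
    have : Real.pi * 1 = Real.pi * (n * 2) := by linarith
    exact mul_left_cancel₀ hpos.ne' this
  have h4 : (1 : ℤ) = n * 2 := by exact_mod_cast h3
  omega

lemma isANR_circle : IsANR Circle := by
  refine ⟨inferInstance, ?_⟩
  intro Z _ _ e he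
  -- extend the inclusion of the circle in the plane
  have hex : ∃ F : C(Z, ℂ), ∀ z : Circle, F (e z) = z := by
    let f : C(Circle, ℂ) := ⟨fun z => (z : ℂ), by fun_prop⟩
    obtain ⟨F, hF⟩ := ContinuousMap.exists_extension he f
    exact ⟨F, fun z => congrArg (fun g : C(Circle, ℂ) => g z) hF⟩
  obtain ⟨F, hF⟩ := hex
  refine ⟨F ⁻¹' {0}ᶜ, isOpen_compl_singleton.preimage F.continuous, ?_, ?_⟩
  · rintro _ ⟨z, rfl⟩
    simp [hF]
  · have hx : ∀ x : (F ⁻¹' {0}ᶜ : Set Z), F x ≠ 0 := fun x => x.2
    have hmem : ∀ x : (F ⁻¹' {0}ᶜ : Set Z), F x / ‖F x‖ ∈ Submonoid.unitSphere ℂ := by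
      intro x
      have h0 := hx x
      simp [Submonoid.unitSphere, h0]
    refine ⟨⟨fun x => ⟨F x / ‖F x‖, hmem x⟩, ?_⟩, ?_⟩
    · refine Continuous.subtype_mk ?_ _
      refine Continuous.div (by fun_prop) (by fun_prop) ?_
      intro x
      simpa using hx x
    · intro z hz
      apply Subtype.ext
      show F (e z) / ‖F (e z)‖ = z
      rw [hF, Circle.norm_coe]
      simp

/-! ### The counterexample -/

/-- `S¹ × Q → Q` -/
noncomputable def toQ (x : Circle × Q) : Q := fun n =>
  Nat.casesOn n (projIcc 0 1 zero_le_one (((x.1 : ℂ).re + 1) / 2))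
    fun m => Nat.casesOn m (projIcc 0 1 zero_le_one (((x.1 : ℂ).im + 1) / 2)) x.2

lemma continuous_toQ : Continuous toQ := by
  refine continuous_pi fun n => ?_
  rcases n with _ | _ | n
  · exact continuous_projIcc.comp (by fun_prop)
  · exact continuous_projIcc.comp (by fun_prop)
  · exact (continuous_apply n).comp continuous_snd

lemma toQ_injective : Function.Injective toQ := by
  have key : ∀ a b : ℝ, |a| ≤ 1 → |b| ≤ 1 →
      projIcc (0 : ℝ) 1 zero_le_one ((a + 1) / 2) = projIcc 0 1 zero_le_one ((b + 1) / 2) →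
        a = b := by
    intro a b ha hb h
    rw [abs_le] at ha hb
    have h1 : (a + 1) / 2 ∈ Icc (0 : ℝ) 1 := ⟨by linarith [ha.1], by linarith [ha.2]⟩
    have h2 : (b + 1) / 2 ∈ Icc (0 : ℝ) 1 := ⟨by linarith [hb.1], by linarith [hb.2]⟩
    rw [projIcc_of_mem _ h1, projIcc_of_mem _ h2, Subtype.mk.injEq] at h
    linarith
  have hre : ∀ z : Circle, |(z : ℂ).re| ≤ 1 := fun z => by
    rw [← Circle.norm_coe z]; exact Complex.abs_re_le_norm (z : ℂ)
  have him : ∀ z : Circle, |(z : ℂ).im| ≤ 1 := fun z => by
    rw [← Circle.norm_coe z]; exact Complex.abs_im_le_norm (z : ℂ)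
  rintro ⟨z, x⟩ ⟨w, y⟩ h
  have h0 := key _ _ (hre z) (hre w) (congr_fun h 0)
  have h1 := key _ _ (him z) (him w) (congr_fun h 1)
  have h2 : x = y := funext fun n => congr_fun h (n + 2)
  have h3 : z = w := Subtype.ext (Complex.ext h0 h1)
  rw [h2, h3]

/-- the open subset `{q | 0 < q 0 < 1}` of the Hilbert cube -/
def V : Set Q := {q | 0 < (q 0 : ℝ) ∧ (q 0 : ℝ) < 1}

lemma isOpen_V : IsOpen V := by
  have h : Continuous fun q : Q => ((q 0 : unitInterval) : ℝ) :=
    continuous_subtype_val.comp (continuous_apply 0)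
  exact (isOpen_lt continuous_const h).inter (isOpen_lt h continuous_const)

lemma continuous_zero : Continuous fun q : V => ((q.1 0 : unitInterval) : ℝ) :=
  continuous_subtype_val.comp ((continuous_apply 0).comp continuous_subtype_val)

lemma continuous_tail : Continuous fun q : V => (fun n => q.1 (n + 1) : Q) :=
  continuous_pi fun n => (continuous_apply (n + 1)).comp continuous_subtype_val

lemma continuous_angle (t : ℝ) :
    Continuous fun q : V => t + 2 * Real.pi * (((q.1 0 : unitInterval) : ℝ) - 1 / 2) :=
  continuous_const.add (continuous_const.mul (continuous_zero.sub continuous_const))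

/-- the chart around a point with angle `t` -/
noncomputable def chart (t : ℝ) (q : V) : Circle × Q :=
  (Circle.exp (t + 2 * Real.pi * ((q.1 0 : ℝ) - 1 / 2)), fun n => q.1 (n + 1))

lemma isOpenEmbedding_chart (t : ℝ) : IsOpenEmbedding (chart t) := by
  have hpi := Real.pi_pos
  -- the chart is a composition
  let a : V → ℝ × Q := fun q => (t + 2 * Real.pi * ((q.1 0 : ℝ) - 1 / 2), fun n => q.1 (n + 1))
  have ha : IsOpenEmbedding a := by
    let W : Set (ℝ × Q) := {w | t - Real.pi < w.1 ∧ w.1 < t + Real.pi}
    have hW : IsOpen W := (isOpen_lt continuous_const continuous_fst).inter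
      (isOpen_lt continuous_fst continuous_const)
    have haW : ∀ q : V, a q ∈ W := by
      intro q
      have hq : 0 < (q.1 0 : ℝ) ∧ (q.1 0 : ℝ) < 1 := q.2
      constructor
      · show t - Real.pi < t + 2 * Real.pi * ((q.1 0 : ℝ) - 1 / 2)
        nlinarith [mul_pos hpi hq.1]
      · show t + 2 * Real.pi * ((q.1 0 : ℝ) - 1 / 2) < t + Real.pi
        nlinarith [mul_pos hpi (sub_pos.2 hq.2)]
    have hb : ∀ w : W, 0 < (w.1.1 - t) / (2 * Real.pi) + 1 / 2 ∧
        (w.1.1 - t) / (2 * Real.pi) + 1 / 2 < 1 := by
      intro w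
      have hw : t - Real.pi < w.1.1 ∧ w.1.1 < t + Real.pi := w.2
      have h1 : -(1 / 2) < (w.1.1 - t) / (2 * Real.pi) := by
        rw [lt_div_iff₀ (by positivity)]; linarith [hw.1]
      have h2 : (w.1.1 - t) / (2 * Real.pi) < 1 / 2 := by
        rw [div_lt_iff₀ (by positivity)]; linarith [hw.2]
      constructor <;> linarith
    let b0 : W → Q := fun w n => Nat.casesOn n
      ⟨(w.1.1 - t) / (2 * Real.pi) + 1 / 2, (hb w).1.le, (hb w).2.le⟩ w.1.2
    let b : W → V := fun w => ⟨b0 w, hb w⟩
    let e : V ≃ₜ W :=
      { toFun := fun q => ⟨a q, haW q⟩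
        invFun := b
        left_inv := by
          intro q
          apply Subtype.ext
          funext n
          rcases n with _ | n
          · apply Subtype.ext
            show (t + 2 * Real.pi * ((q.1 0 : ℝ) - 1 / 2) - t) / (2 * Real.pi) + 1 / 2 = q.1 0
            field_simp
            ring
          · rfl
        right_inv := by
          intro w
          apply Subtype.ext
          refine Prod.ext ?_ rfl
          show t + 2 * Real.pi * (((w.1.1 - t) / (2 * Real.pi) + 1 / 2) - 1 / 2) = w.1.1
          field_simp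
          ring
        continuous_toFun := by
          exact Continuous.subtype_mk ((continuous_angle t).prodMk continuous_tail) _
        continuous_invFun := by
          refine Continuous.subtype_mk (continuous_pi fun n => ?_) _
          rcases n with _ | n
          · refine Continuous.subtype_mk ?_ _
            exact (((continuous_fst.comp continuous_subtype_val).sub continuous_const).div_const
              _).add continuous_const
          · exact (continuous_apply n).comp (continuous_snd.comp continuous_subtype_val) }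
    exact hW.isOpenEmbedding_subtypeVal.comp e.isOpenEmbedding
  have hb : IsOpenMap (Prod.map Circle.exp id : ℝ × Q → Circle × Q) :=
    isLocalHomeomorph_circleExp.isOpenMap.prodMap IsOpenMap.id
  refine .of_continuous_injective_isOpenMap ?_ ?_ (hb.comp ha.isOpenMap)
  · exact (Circle.exp.continuous.comp (continuous_angle t)).prodMk continuous_tail
  · intro p q h
    have h1 : Circle.exp (t + 2 * Real.pi * ((p.1 0 : ℝ) - 1 / 2)) =
      Circle.exp (t + 2 * Real.pi * ((q.1 0 : ℝ) - 1 / 2)) := congrArg Prod.fst h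
    have h2 := congrArg Prod.snd h
    have hp : 0 < (p.1 0 : ℝ) ∧ (p.1 0 : ℝ) < 1 := p.2
    have hq : 0 < (q.1 0 : ℝ) ∧ (q.1 0 : ℝ) < 1 := q.2
    have h3 := Circle.exp_injOn_Ico (a := t - Real.pi) (b := t + Real.pi) (by linarith)
      (by constructor <;> nlinarith) (by constructor <;> nlinarith) h1
    have h4 : (p.1 0 : ℝ) = q.1 0 := by
      have : 2 * Real.pi * (p.1 0 : ℝ) = 2 * Real.pi * (q.1 0 : ℝ) := by linarith
      exact mul_left_cancel₀ (by positivity) this
    apply Subtype.ext
    funext n
    rcases n with _ | n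
    · exact Subtype.ext h4
    · exact congr_fun h2 n

lemma isQManifold : IsQManifold (Circle × Q) := by
  refine ⟨inferInstance, inferInstance, ?_⟩
  rintro ⟨z, x⟩
  obtain ⟨t, rfl⟩ := Circle.exp_surjective z
  refine ⟨V, chart t, isOpen_V, isOpenEmbedding_chart t, ?_⟩
  refine ⟨⟨fun n => Nat.casesOn n ⟨1 / 2, by norm_num, by norm_num⟩ x, ?_⟩, ?_⟩
  · show (0 : ℝ) < 1 / 2 ∧ (1 / 2 : ℝ) < 1
    norm_num
  · simp [chart]

/-- **Q1 fails for the compact Hilbert cube manifold `S¹ × Q`.** The space `S¹ × Q` is a compact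
`Q`-manifold, and for every metric space `M` homeomorphic to it (that is, for every choice of the
fixed metric), every nonempty compact metrizable space `B` and every `ε > 0` there are a Hurewicz
fibration `p : E → B` of a compact metric space `E` all of whose fibers are isometric to `M` and a
fiberwise `ε`-map `f : E → M × B` that is not a shape equivalence. -/
theorem result :
    (CompactSpace (Circle × Q) ∧ IsQManifold (Circle × Q)) ∧
    ∀ (M : Type) [MetricSpace M], Nonempty (M ≃ₜ Circle × Q) →
    ∀ (B : Type) [TopologicalSpace B] [CompactSpace B] [TopologicalSpace.MetrizableSpace B]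
      [Nonempty B] (ε : ℝ), 0 < ε →
      ∃ (E : Type) (_ : MetricSpace E) (p : C(E, B)) (f : C(E, M × B)),
        CompactSpace E ∧ IsHurewiczFibration p ∧ (∀ b : B, Nonempty (p ⁻¹' {b} ≃ᵢ M)) ∧
        (∀ x : E, (f x).2 = p x) ∧ (∀ y : M × B, Metric.diam (f ⁻¹' {y}) < ε) ∧
        ¬ IsShapeEquiv f := by
  refine ⟨⟨inferInstance, isQManifold⟩, ?_⟩
  rintro M _ ⟨h⟩ B _ _ _ _ ε hε
  let _ : MetricSpace B := TopologicalSpace.metrizableSpaceMetric B
  have : CompactSpace M := h.symm.compactSpace
  obtain ⟨b0⟩ := ‹Nonempty B›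
  let j : C(M, M) := ⟨fun m => h.symm (1, toQ (h m)),
    h.symm.continuous.comp (continuous_const.prodMk (continuous_toQ.comp h.continuous))⟩
  have hj : Function.Injective j := by
    intro m m' hm
    have := congrArg Prod.snd (h.symm.injective hm)
    exact h.injective (toQ_injective this)
  let f : C(M × B, M × B) := ⟨fun x => (j x.1, x.2), by fun_prop⟩
  have hf : Function.Injective f := by
    rintro ⟨m, b⟩ ⟨m', b'⟩ hx
    have h1 : j m = j m' := congrArg Prod.fst hx
    have h2 : b = b' := congrArg Prod.snd hx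
    rw [hj h1, h2]
  refine ⟨M × B, inferInstance, ⟨Prod.snd, continuous_snd⟩, f, inferInstance, ?_, ?_, ?_, ?_, ?_⟩
  · intro Z _ H g hg
    refine ⟨⟨fun y => ((g y.1).1, H y), by fun_prop⟩, ?_, fun y => rfl⟩
    intro z
    refine Prod.ext rfl ?_
    exact (hg z).symm
  · intro b
    refine ⟨⟨⟨fun x => x.1.1, fun m => ⟨(m, b), rfl⟩, ?_, fun m => rfl⟩, ?_⟩⟩
    · rintro ⟨⟨m, b'⟩, hb⟩
      have hb : b' = b := hb
      subst hb
      rfl
    · rintro ⟨⟨m, b1⟩, hb1⟩ ⟨⟨m', b2⟩, hb2⟩
      have hb1 : b1 = b := hb1
      have hb2 : b2 = b := hb2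
      subst hb1 hb2
      show edist m m' = edist (m, b2) (m', b2)
      simp [Prod.edist_eq]
  · intro x
    rfl
  · intro y
    have : (f ⁻¹' {y}).Subsingleton := by
      intro a ha b hb
      exact hf (ha.trans hb.symm)
    rw [Metric.diam_subsingleton this]
    exact hε
  · intro hs
    obtain ⟨hinj, -⟩ := hs Circle isANR_circle
    let q : C(M × B, Circle) := ⟨fun x => (h x.1).1, by fun_prop⟩
    have hq : q.comp f = (ContinuousMap.const (M × B) 1).comp f := by
      ext x
      simp [q, f, j]
    have h1 : q.Homotopic (ContinuousMap.const (M × B) 1) :=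
      hinj _ _ (by rw [hq]; exact ContinuousMap.Homotopic.refl _)
    let i : C(Circle, M × B) := ⟨fun z => (h.symm (z, fun _ => 0), b0), by fun_prop⟩
    have h2 : q.comp i = ContinuousMap.id Circle := by
      ext z
      simp [q, i]
    have h3 := h1.comp (ContinuousMap.Homotopic.refl i)
    rw [h2] at h3
    exact circle_not_nullhomotopic 1 h3

end Pool.Agent.Results.MP_bb2a3d_gt.QManifold
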